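-- module Pool.Agent.Run7.h983.GM.COPY
import Pool.Agent.Run7.h834.GM.Iface

set_option autoImplicit false

namespace Run7.h983.GM

open SimpleGraph Run7.h834.GM
open Pool.Agent.TH507.Host

lemma reach_const {α β : Type} {G : SimpleGraph α} (f : α → β) (h : ∀ x y, G.Adj x y → f x = f y)
    {x y : α} (hr : G.Reachable x y) : f x = f y := by
  obtain ⟨w⟩ := hr
  induction w with
  | nil => rfl
  | cons hadj _ ih => exact (h _ _ hadj).trans ih

theorem t_COPY : S_COPY := by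
  intro F hF V G k hG H hH hm
  obtain ⟨B, hB1, hB2, hB3⟩ := hm
  obtain ⟨hc, -⟩ := hF.2 H hH
  have hsame : ∀ x, ∀ p ∈ B x, ∀ q ∈ B x, p.2 = q.2 := by
    intro x p hp q hq
    have hr := (hB1 x).preconnected ⟨p, hp⟩ ⟨q, hq⟩
    exact reach_const (G := (cop G k).induce (B x)) (fun z => z.1.2) (fun u v h => h.1) hr
  have hne : ∀ x, ∃ p, p ∈ B x := fun x => ⟨_, (hB1 x).nonempty.some.2⟩
  choose p hp using hne
  have hall : ∀ x y, (p x).2 = (p y).2 := by
    intro x y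
    refine reach_const (fun x => (p x).2) ?_ (hc.preconnected x y)
    intro x y hxy
    obtain ⟨u, hu, v, hv, huv⟩ := hB3 x y hxy
    exact (hsame x _ (hp x) u hu).trans (huv.1.trans (hsame y v hv _ (hp y)))
  obtain ⟨x0⟩ := hc.nonempty
  have ha : ∀ x, ∀ q ∈ B x, q.2 = (p x0).2 := fun x q hq =>
    (hsame x q hq _ (hp x)).trans (hall x x0)
  have hmem : ∀ x, ∀ q ∈ B x, (q.1, (p x0).2) ∈ B x := by
    intro x q hq
    rw [← ha x q hq]
    exact hq
  refine hG H hH ⟨fun x => {v | (v, (p x0).2) ∈ B x}, fun x => ?_, fun x y hxy => ?_,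
    fun x y hxy => ?_⟩
  · refine SimpleGraph.Connected.map (G := (cop G k).induce (B x))
      ⟨fun q => ⟨q.1.1, hmem x q.1 q.2⟩, fun {q q'} h => h.2⟩ ?_ (hB1 x)
    rintro ⟨v, hv⟩
    exact ⟨⟨(v, (p x0).2), hv⟩, rfl⟩
  · rw [Set.disjoint_left]
    intro v hv hv'
    exact (Set.disjoint_left.mp (hB2 x y hxy)) hv hv'
  · obtain ⟨u, hu, v, hv, huv⟩ := hB3 x y hxy
    exact ⟨u.1, hmem x u hu, v.1, hmem y v hv, huv.2⟩

end Run7.h983.GM
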